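import Mathlib
import Pool.Agent.TH942.Ner

/-!
# Rational points of bounded height on `y² = x³ + a x + b` and primitive solutions of
# `B² = A³ + a A D⁴ + b D⁶`
-/

set_option autoImplicit false

open Filter Topology

namespace Pool.Agent.D0H93.RP

/-- the primitive solutions of `B² = A³ + a A D⁴ + b D⁶`, `D ≥ 1`, `|A| ≤ X`, `D² ≤ X` -/
abbrev Sol (a b : ℤ) (X : ℝ) : Type :=
  {v : ℤ × ℤ × ℤ // 1 ≤ v.2.2 ∧ IsCoprime v.1 v.2.2 ∧
    v.2.1 ^ 2 = v.1 ^ 3 + a * v.1 * v.2.2 ^ 4 + b * v.2.2 ^ 6 ∧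
    (|v.1| : ℝ) ≤ X ∧ ((v.2.2 : ℝ)) ^ 2 ≤ X}

/-- the rational points -/
abbrev Rat2 (a b : ℤ) (X : ℝ) : Type :=
  {P : ℚ × ℚ // P.2 ^ 2 = P.1 ^ 3 + a * P.1 + b ∧ (max P.1.num.natAbs P.1.den : ℝ) ≤ X}

theorem num_den {A D : ℤ} (hD : 1 ≤ D) (h : IsCoprime A D) :
    ((A : ℚ) / (D : ℚ) ^ 2).num = A ∧ (((A : ℚ) / (D : ℚ) ^ 2).den : ℤ) = D ^ 2 := by
  have h1 : (A.natAbs).Coprime ((D ^ 2 : ℤ).natAbs) := by
    have : IsCoprime A (D ^ 2) := h.pow_right
    exact Int.isCoprime_iff_gcd_eq_one.1 this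
  have h2 : (0 : ℤ) < D ^ 2 := by positivity
  have e : ((A : ℚ) / (D : ℚ) ^ 2) = (A : ℚ) / ((D ^ 2 : ℤ) : ℚ) := by push_cast; rfl
  rw [e]
  exact ⟨Rat.num_div_eq_of_coprime h2 h1, Rat.den_div_eq_of_coprime h2 h1⟩

theorem den_square {a b : ℤ} {x y : ℚ} (h : y ^ 2 = x ^ 3 + a * x + b) :
    ∃ k : ℕ, 0 < k ∧ x.den = k ^ 2 ∧ y.den = k ^ 3 := by
  set n : ℤ := (x.den : ℤ) with hn
  set m : ℤ := x.num with hm
  have hn0 : 0 < n := by
    rw [hn]
    exact_mod_cast x.den_pos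
  have hcop : IsCoprime m n := by
    rw [Int.isCoprime_iff_gcd_eq_one]
    exact x.reduced
  have hM : IsCoprime (m ^ 3 + a * m * n ^ 2 + b * n ^ 3) (n ^ 3) := by
    refine IsCoprime.pow_right ?_
    have h1 : m ^ 3 + a * m * n ^ 2 + b * n ^ 3 = m ^ 3 + n * (a * m * n + b * n ^ 2) := by ring
    rw [h1]
    exact (IsCoprime.add_mul_left_left_iff).2 (IsCoprime.pow_left hcop)
  have hxq : x = (m : ℚ) / (n : ℚ) := by
    rw [hm, hn]
    push_cast
    exact (Rat.num_div_den x).symm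
  have hnq : (n : ℚ) ≠ 0 := by exact_mod_cast hn0.ne'
  have hy : y ^ 2 = ((m ^ 3 + a * m * n ^ 2 + b * n ^ 3 : ℤ) : ℚ) / ((n ^ 3 : ℤ) : ℚ) := by
    rw [h, hxq]
    push_cast
    field_simp
  have h2 : (((y ^ 2).den : ℕ) : ℤ) = n ^ 3 := by
    rw [hy]
    exact Rat.den_div_eq_of_coprime (by positivity) (Int.isCoprime_iff_gcd_eq_one.1 hM)
  rw [Rat.den_pow] at h2
  have h3 : y.den ^ 2 = x.den ^ 3 := by
    have : ((y.den ^ 2 : ℕ) : ℤ) = ((x.den ^ 3 : ℕ) : ℤ) := by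
      rw [h2, hn]
      push_cast
      rfl
    exact_mod_cast this
  have h4 : x.den ∣ y.den := by
    have : x.den ^ 2 ∣ y.den ^ 2 := by
      rw [h3]
      exact pow_dvd_pow _ (by norm_num)
    exact (Nat.pow_dvd_pow_iff two_ne_zero).1 this
  obtain ⟨k, hk⟩ := h4
  have hx0 : 0 < x.den := x.den_pos
  have h5 : k ^ 2 = x.den := by
    rw [hk] at h3
    have h6 : x.den ^ 2 * k ^ 2 = x.den ^ 2 * x.den := by
      calc x.den ^ 2 * k ^ 2 = (x.den * k) ^ 2 := by ring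
        _ = x.den ^ 3 := h3
        _ = _ := by ring
    exact Nat.eq_of_mul_eq_mul_left (by positivity) h6
  have hk0 : 0 < k := by
    rcases Nat.eq_zero_or_pos k with h7 | h7
    · rw [h7] at h5
      simp at h5
      omega
    · exact h7
  exact ⟨k, hk0, h5.symm, by rw [hk, ← h5]; ring⟩

/-- the bijection -/
noncomputable def equiv (a b : ℤ) (X : ℝ) : Sol a b X ≃ Rat2 a b X := by
  refine Equiv.ofBijective (fun v => ⟨((v.1.1 : ℚ) / (v.1.2.2 : ℚ) ^ 2,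
    (v.1.2.1 : ℚ) / (v.1.2.2 : ℚ) ^ 3), ?_, ?_⟩) ?_
  · obtain ⟨⟨A, B, D⟩, h1, h2, h3, h4, h5⟩ := v
    have hD : (D : ℚ) ≠ 0 := by
      have : D ≠ 0 := by
        have := h1
        simp only at this
        omega
      exact_mod_cast this
    have h3q : (B : ℚ) ^ 2 = (A : ℚ) ^ 3 + a * A * (D : ℚ) ^ 4 + b * (D : ℚ) ^ 6 := by
      exact_mod_cast h3
    show ((B : ℚ) / (D : ℚ) ^ 3) ^ 2 = ((A : ℚ) / (D : ℚ) ^ 2) ^ 3 + a * ((A : ℚ) / (D : ℚ) ^ 2) + b
    rw [div_pow, h3q]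
    field_simp
  · obtain ⟨⟨A, B, D⟩, h1, h2, h3, h4, h5⟩ := v
    obtain ⟨e1, e2⟩ := num_den h1 h2
    show (max (((A : ℚ) / (D : ℚ) ^ 2).num.natAbs : ℝ) (((A : ℚ) / (D : ℚ) ^ 2).den : ℝ)) ≤ X
    rw [e1]
    have e3 : ((((A : ℚ) / (D : ℚ) ^ 2).den : ℕ) : ℝ) = (D : ℝ) ^ 2 := by exact_mod_cast e2
    rw [e3]
    refine max_le ?_ h5
    have : ((A.natAbs : ℕ) : ℝ) = |(A : ℝ)| := by
      rw [← Int.cast_abs, Int.abs_eq_natAbs]
      simp
    rw [this]
    exact h4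
  · constructor
    · rintro ⟨⟨A, B, D⟩, h1, h2, h3, h4, h5⟩ ⟨⟨A', B', D'⟩, h1', h2', h3', h4', h5'⟩ h
      simp only [Subtype.mk.injEq, Prod.mk.injEq] at h
      simp only at h1 h2 h1' h2'
      obtain ⟨hx, hy⟩ := h
      obtain ⟨e1, e2⟩ := num_den h1 h2
      obtain ⟨e1', e2'⟩ := num_den h1' h2'
      have hA : A = A' := by rw [← e1, ← e1', hx]
      have hD2 : D ^ 2 = D' ^ 2 := by rw [← e2, ← e2', hx]
      have hD : D = D' := by
        rcases sq_eq_sq_iff_eq_or_eq_neg.1 hD2 with h | h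
        · exact h
        · omega
      subst hA hD
      have hDq : (D : ℚ) ^ 3 ≠ 0 := by
        have : D ≠ 0 := by omega
        have : (D : ℚ) ≠ 0 := by exact_mod_cast this
        positivity
      have hB : (B : ℚ) = B' := by
        have := hy
        rwa [div_left_inj' hDq] at this
      have hB' : B = B' := by exact_mod_cast hB
      subst hB'
      rfl
    · rintro ⟨⟨x, y⟩, h1, h2⟩
      obtain ⟨k, hk, hx, hy⟩ := den_square h1
      have hkq : (k : ℚ) ≠ 0 := by exact_mod_cast hk.ne'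
      have hxe : x = (x.num : ℚ) / ((k : ℤ) : ℚ) ^ 2 := by
        conv_lhs => rw [← Rat.num_div_den x, hx]
        push_cast
        rfl
      have hye : y = (y.num : ℚ) / ((k : ℤ) : ℚ) ^ 3 := by
        conv_lhs => rw [← Rat.num_div_den y, hy]
        push_cast
        rfl
      have hcop : IsCoprime x.num (k : ℤ) := by
        have h3 : IsCoprime x.num (x.den : ℤ) := by
          rw [Int.isCoprime_iff_gcd_eq_one]
          exact x.reduced
        rw [hx] at h3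
        push_cast at h3
        exact (IsCoprime.pow_right_iff two_pos).1 h3
      refine ⟨⟨(x.num, y.num, (k : ℤ)), ?_, hcop, ?_, ?_, ?_⟩, ?_⟩
      · show (1 : ℤ) ≤ k
        exact_mod_cast hk
      · show y.num ^ 2 = x.num ^ 3 + a * x.num * (k : ℤ) ^ 4 + b * (k : ℤ) ^ 6
        have h1' : y ^ 2 = x ^ 3 + a * x + b := h1
        have hkz : ((k : ℤ) : ℚ) ≠ 0 := by exact_mod_cast hk.ne'
        rw [hye, hxe] at h1'
        have h4 : (y.num : ℚ) ^ 2 = (x.num : ℚ) ^ 3 + a * x.num * ((k : ℤ) : ℚ) ^ 4 +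
            b * ((k : ℤ) : ℚ) ^ 6 := by
          field_simp at h1'
          linear_combination h1'
        exact_mod_cast h4
      · show |(x.num : ℝ)| ≤ X
        have : ((x.num.natAbs : ℕ) : ℝ) = |(x.num : ℝ)| := by
          rw [← Int.cast_abs, Int.abs_eq_natAbs]
          simp
        rw [← this]
        exact (le_max_left _ _).trans h2
      · show (((k : ℤ) : ℝ)) ^ 2 ≤ X
        have : (((k : ℤ) : ℝ)) ^ 2 = (x.den : ℝ) := by
          rw [hx]
          push_cast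
          rfl
        rw [this]
        exact (le_max_right _ _).trans h2
      · refine Subtype.ext (Prod.ext ?_ ?_)
        · exact hxe.symm
        · exact hye.symm

theorem card_sol (a b : ℤ) (X : ℝ) :
    Nat.card (Sol a b X) + 1 = Pool.Agent.TH942.ratCount a b X := by
  unfold Pool.Agent.TH942.ratCount
  rw [Nat.card_congr (equiv a b X)]

end Pool.Agent.D0H93.RP
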