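import Mathlib
import Pool.Agent.D0H93.RP.Count
import Pool.Agent.W187.UR.Np2
import Pool.Agent.W392.UR.Fac

/-!
# The defect law: rational points of bounded height against the rotated products
-/

set_option autoImplicit false

open Filter Topology

namespace Pool.Agent.D0H93.RP

/-- the rank -/
noncomputable def rk (a b : ℤ) : ℕ := Module.finrank ℤ (Pool.Agent.TH942.SPt (a : ℚ) (b : ℚ))

/-- the number of rational points -/
noncomputable def rc (a b : ℤ) (X : ℝ) : ℝ := (Nat.card (Sol a b X) : ℝ) + 1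

theorem rc_eq (a b : ℤ) (X : ℝ) : rc a b X = (Pool.Agent.TH942.ratCount a b X : ℝ) := by
  rw [← card_sol]
  unfold rc
  push_cast
  rfl

theorem one_le_rc (a b : ℤ) (X : ℝ) : 1 ≤ rc a b X := by
  unfold rc
  have : (0 : ℝ) ≤ (Nat.card (Sol a b X) : ℝ) := by positivity
  linarith

theorem sol_finite {a b : ℤ} (hab : 4 * a ^ 3 + 27 * b ^ 2 ≠ 0) {X : ℝ} (hX : 1 ≤ X) :
    Finite (Sol a b X) := by
  have hD : 4 * (a : ℚ) ^ 3 + 27 * (b : ℚ) ^ 2 ≠ 0 := by exact_mod_cast hab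
  have hfin : Finite {P : Pool.Agent.TH942.SPt (a : ℚ) (b : ℚ) //
      Pool.Agent.TH942.sht P ≤ Real.log X} :=
    (Pool.Agent.TH942.sfinite_ht (Real.log X)).to_subtype
  have h2 : Finite (Option (Rat2 a b X)) := Finite.of_equiv _ (Pool.Agent.TH942.ratEquiv hD hX)
  have h3 : Finite (Rat2 a b X) := Finite.of_injective _ (Option.some_injective _)
  exact Finite.of_equiv _ (equiv a b X).symm

theorem rc_mono {a b : ℤ} (hab : 4 * a ^ 3 + 27 * b ^ 2 ≠ 0) {X Y : ℝ} (hX : 1 ≤ X) (h : X ≤ Y) :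
    rc a b X ≤ rc a b Y := by
  have hf := sol_finite hab (hX.trans h)
  unfold rc
  have : Nat.card (Sol a b X) ≤ Nat.card (Sol a b Y) := by
    refine Nat.card_le_card_of_injective
      (fun v => (⟨v.1, v.2.1, v.2.2.1, v.2.2.2.1, v.2.2.2.2.1.trans h,
        v.2.2.2.2.2.trans h⟩ : Sol a b Y)) ?_
    intro v w hvw
    simp only [Subtype.mk.injEq] at hvw
    exact Subtype.ext hvw
  have h2 : (Nat.card (Sol a b X) : ℝ) ≤ (Nat.card (Sol a b Y) : ℝ) := by exact_mod_cast this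
  linarith

theorem exp_lt_three : Real.exp 1 < 3 := by
  have := Real.exp_one_lt_d9
  linarith

theorem one_lt_log {X : ℝ} (hX : 3 ≤ X) : 1 < Real.log X := by
  rw [Real.lt_log_iff_exp_lt (by linarith)]
  have := exp_lt_three
  linarith

/-- the number of rational points in logarithmic form -/
theorem log_rc {a b : ℤ} (hab : 4 * a ^ 3 + 27 * b ^ 2 ≠ 0) :
    ∃ M : ℝ, ∀ X : ℝ, 3 ≤ X →
      |2 * Real.log (rc a b X) - rk a b * Real.log (Real.log X)| ≤ M := by
  obtain ⟨κ, hκ, h1⟩ := Pool.Agent.TH942.ratCount_growth hab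
  have h2 : Tendsto (fun X : ℝ => 2 * Real.log ((Pool.Agent.TH942.ratCount a b X : ℝ) /
      (Real.log X) ^ ((Module.finrank ℤ (Pool.Agent.TH942.SPt (a : ℚ) (b : ℚ)) : ℝ) / 2)))
      atTop (𝓝 (2 * Real.log κ)) :=
    ((Real.continuousAt_log hκ.ne').tendsto.comp h1).const_mul 2
  have h3 : ∀ᶠ X : ℝ in atTop, |2 * Real.log ((Pool.Agent.TH942.ratCount a b X : ℝ) /
      (Real.log X) ^ ((Module.finrank ℤ (Pool.Agent.TH942.SPt (a : ℚ) (b : ℚ)) : ℝ) / 2)) -
      2 * Real.log κ| < 1 := by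
    have := h2.eventually (Metric.ball_mem_nhds _ one_pos)
    filter_upwards [this] with X hX
    rw [Real.dist_eq] at hX
    exact hX
  obtain ⟨X₀, hX₀⟩ := Filter.eventually_atTop.1 h3
  set Y := max X₀ 3 with hY
  have hY3 : (3 : ℝ) ≤ Y := le_max_right _ _
  refine ⟨max (1 + |2 * Real.log κ|) (2 * Real.log (rc a b Y) +
    rk a b * Real.log (Real.log Y)), fun X hX => ?_⟩
  have hl := one_lt_log hX
  have hll : 0 ≤ Real.log (Real.log X) := Real.log_nonneg hl.le
  have hR1 := one_le_rc a b X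
  have hlR : 0 ≤ Real.log (rc a b X) := Real.log_nonneg hR1
  have hr0 : (0 : ℝ) ≤ rk a b := by positivity
  rcases le_total X₀ X with h | h
  · refine le_max_of_le_left ?_
    have h4 := hX₀ X h
    have h5 : Real.log ((Pool.Agent.TH942.ratCount a b X : ℝ) /
      (Real.log X) ^ ((Module.finrank ℤ (Pool.Agent.TH942.SPt (a : ℚ) (b : ℚ)) : ℝ) / 2)) =
        Real.log (rc a b X) - rk a b / 2 * Real.log (Real.log X) := by
      rw [← rc_eq, Real.log_div (by linarith) (Real.rpow_pos_of_pos (by linarith) _).ne',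
        Real.log_rpow (by linarith)]
      rfl
    rw [h5] at h4
    have h6 : 2 * Real.log (rc a b X) - rk a b * Real.log (Real.log X) =
        (2 * (Real.log (rc a b X) - rk a b / 2 * Real.log (Real.log X)) - 2 * Real.log κ) +
          2 * Real.log κ := by ring
    rw [h6]
    exact (abs_add_le _ _).trans (by linarith)
  · refine le_max_of_le_right ?_
    have hXY : X ≤ Y := h.trans (le_max_left _ _)
    have h4 : rc a b X ≤ rc a b Y := rc_mono hab (by linarith) hXY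
    have h5 : Real.log (rc a b X) ≤ Real.log (rc a b Y) := Real.log_le_log (by linarith) h4
    have h6 : Real.log (Real.log X) ≤ Real.log (Real.log Y) :=
      Real.log_le_log (by linarith) (Real.log_le_log (by linarith) hXY)
    have h7 : rk a b * Real.log (Real.log X) ≤ rk a b * Real.log (Real.log Y) := by gcongr
    have h8 : 0 ≤ rk a b * Real.log (Real.log X) := by positivity
    rw [abs_le]
    constructor <;> linarith

/-- **The defect law.** -/
theorem defect {a b : ℤ} (hab : 4 * a ^ 3 + 27 * b ^ 2 ≠ 0) {F : ℂ → ℂ}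
    (hF : Pool.Agent.W263.BSD.IsLSeries a b F) {m : ℕ} (hm : analyticOrderAt F 1 = m) {c : ℝ}
    (hc : Real.pi / 2 < c) :
    ∃ M : ℝ, ∀ X : ℝ, 3 ≤ X → |2 * Real.log (rc a b X) - Pool.Agent.W187.UR.rotSum a b c X -
      ((rk a b : ℝ) - m) * Real.log (Real.log X)| ≤ M := by
  obtain ⟨M₁, h1⟩ := log_rc hab
  obtain ⟨M₂, h2⟩ := Pool.Agent.W187.UR.rot_law hF (Pool.Agent.W187.UR.bel
    Pool.Agent.W392.UR.fac) hm hc
  refine ⟨M₁ + M₂, fun X hX => ?_⟩
  have h3 := abs_le.1 (h1 X hX)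
  have h4 := abs_le.1 (h2 X hX)
  rw [abs_le]
  constructor <;> nlinarith [h3.1, h3.2, h4.1, h4.2]

/-! ### From the defect law to the equivalences -/

theorem loglog_atTop : Tendsto (fun X : ℝ => Real.log (Real.log X)) atTop atTop :=
  Real.tendsto_log_atTop.comp Real.tendsto_log_atTop

/-- `2 log R - S` is bounded above iff `d ≤ 0`, etc. -/
theorem tfae_le {D : ℝ → ℝ} {d : ℤ} {M : ℝ}
    (h : ∀ X : ℝ, 3 ≤ X → |D X - d * Real.log (Real.log X)| ≤ M) :
    List.TFAE [d ≤ 0, ∃ B : ℝ, ∀ X : ℝ, 3 ≤ X → D X ≤ B,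
      ∃ δ : ℝ, δ < 1 ∧ ∃ᶠ X : ℝ in atTop, D X ≤ δ * Real.log (Real.log X)] := by
  tfae_have 1 → 2 := by
    intro hd
    refine ⟨M, fun X hX => ?_⟩
    have h1 := (abs_le.1 (h X hX)).2
    have h2 : 0 ≤ Real.log (Real.log X) := Real.log_nonneg (one_lt_log hX).le
    have h3 : (d : ℝ) ≤ 0 := by exact_mod_cast hd
    nlinarith
  tfae_have 2 → 3 := by
    rintro ⟨B, hB⟩
    refine ⟨1 / 2, by norm_num, ?_⟩
    refine Eventually.frequently ?_
    filter_upwards [loglog_atTop.eventually_ge_atTop (2 * B), eventually_ge_atTop 3] with X h1 h2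
    have := hB X h2
    linarith
  tfae_have 3 → 1 := by
    rintro ⟨δ, hδ, hfr⟩
    by_contra hd
    push Not at hd
    have hd1 : (1 : ℝ) ≤ d := by exact_mod_cast hd
    obtain ⟨X, ⟨h1, h2⟩, h3⟩ := ((hfr.and_eventually (eventually_ge_atTop 3)).and_eventually
      (loglog_atTop.eventually_gt_atTop (M / (1 - δ)))).exists
    have h4 := (abs_le.1 (h X h2)).1
    have h5 : 0 ≤ Real.log (Real.log X) := Real.log_nonneg (one_lt_log h2).le
    rw [div_lt_iff₀ (by linarith)] at h3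
    nlinarith
  tfae_finish

theorem tfae_ge {D : ℝ → ℝ} {d : ℤ} {M : ℝ}
    (h : ∀ X : ℝ, 3 ≤ X → |D X - d * Real.log (Real.log X)| ≤ M) :
    List.TFAE [0 ≤ d, ∃ B : ℝ, ∀ X : ℝ, 3 ≤ X → B ≤ D X,
      ∃ δ : ℝ, δ < 1 ∧ ∃ᶠ X : ℝ in atTop, - (δ * Real.log (Real.log X)) ≤ D X] := by
  have h' : ∀ X : ℝ, 3 ≤ X → |(fun X => - D X) X - ((-d : ℤ) : ℝ) * Real.log (Real.log X)| ≤ M := by
    intro X hX
    have : (fun X => - D X) X - ((-d : ℤ) : ℝ) * Real.log (Real.log X) =
        - (D X - d * Real.log (Real.log X)) := by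
      push_cast
      ring
    rw [this, abs_neg]
    exact h X hX
  have h1 := tfae_le h'
  have e1 : (-d ≤ 0) ↔ 0 ≤ d := by omega
  have e2 : (∃ B : ℝ, ∀ X : ℝ, 3 ≤ X → (fun X => - D X) X ≤ B) ↔
      ∃ B : ℝ, ∀ X : ℝ, 3 ≤ X → B ≤ D X := by
    constructor
    · rintro ⟨B, hB⟩
      exact ⟨-B, fun X hX => by have := hB X hX; simp only at this; linarith⟩
    · rintro ⟨B, hB⟩
      exact ⟨-B, fun X hX => by have := hB X hX; simp only; linarith⟩
  have e3 : (∃ δ : ℝ, δ < 1 ∧ ∃ᶠ X : ℝ in atTop, (fun X => - D X) X ≤ δ * Real.log (Real.log X)) ↔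
      ∃ δ : ℝ, δ < 1 ∧ ∃ᶠ X : ℝ in atTop, - (δ * Real.log (Real.log X)) ≤ D X := by
    refine exists_congr fun δ => and_congr_right fun _ => ?_
    refine Filter.frequently_congr (Eventually.of_forall fun X => ?_)
    simp only
    constructor <;> intro h <;> linarith
  rw [e1, e2, e3] at h1
  exact h1

end Pool.Agent.D0H93.RP
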