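import Mathlib
import Pool.Agent.D0H93.RP.Lead
import Pool.Agent.D0H40.PL.Main
import Pool.Agent.N586.BP.Core

/-!
# The products with the sharp cut-off and the number of rational points
-/

set_option autoImplicit false

open Filter Topology

namespace Pool.Agent.D0H93.RP

open Pool.Agent.W263.BSD Pool.Agent.N586.BP

/-- `P / (log x)^r → A` iff `P / R² → A / κ`, where `R² / (log x)^r → κ` -/
theorem tendsto_quot_iff {P R : ℝ → ℝ} {r : ℕ} {κ A : ℝ} (hκ : 0 < κ)
    (hR : Tendsto (fun x : ℝ => R x ^ 2 / Real.log x ^ r) atTop (𝓝 κ)) :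
    Tendsto (fun x : ℝ => P x / Real.log x ^ (r : ℝ)) atTop (𝓝 A) ↔
      Tendsto (fun x : ℝ => P x / R x ^ 2) atTop (𝓝 (A / κ)) := by
  have hR0 : ∀ᶠ x : ℝ in atTop, R x ^ 2 / Real.log x ^ r ≠ 0 := hR.eventually_ne hκ.ne'
  have e1 : ∀ᶠ x : ℝ in atTop, P x / Real.log x ^ (r : ℝ) / (R x ^ 2 / Real.log x ^ r) =
      P x / R x ^ 2 := by
    filter_upwards [hR0, eventually_ge_atTop 3] with x h1 h2
    have hl := one_lt_log h2
    have h3 : Real.log x ^ r ≠ 0 := (pow_pos (by linarith) _).ne'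
    have h4 : R x ^ 2 ≠ 0 := fun h => h1 (by rw [h, zero_div])
    rw [Real.rpow_natCast]
    field_simp
  have e2 : ∀ᶠ x : ℝ in atTop, P x / R x ^ 2 * (R x ^ 2 / Real.log x ^ r) =
      P x / Real.log x ^ (r : ℝ) := by
    filter_upwards [hR0, eventually_ge_atTop 3] with x h1 h2
    have hl := one_lt_log h2
    have h3 : Real.log x ^ r ≠ 0 := (pow_pos (by linarith) _).ne'
    have h4 : R x ^ 2 ≠ 0 := fun h => h1 (by rw [h, zero_div])
    have h5 : R x ≠ 0 := fun h => h4 (by rw [h]; norm_num)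
    rw [Real.rpow_natCast]
    field_simp
  constructor
  · intro h
    exact (h.div hR hκ.ne').congr' e1
  · intro h
    have h2 := (h.mul hR).congr' e2
    rwa [div_mul_cancel₀ _ hκ.ne'] at h2

/-- comparison of `R²` with powers of the logarithm -/
theorem rsq_bounds {R : ℝ → ℝ} {r : ℕ} {κ : ℝ} (hκ : 0 < κ)
    (hR : Tendsto (fun x : ℝ => R x ^ 2 / Real.log x ^ r) atTop (𝓝 κ)) {C ε : ℝ} (hε : 0 < ε) :
    (∀ᶠ x : ℝ in atTop, C * R x ^ 2 ≤ Real.log x ^ ((r : ℝ) + ε)) ∧
    (0 < C → ∀ᶠ x : ℝ in atTop, Real.log x ^ ((r : ℝ) - ε) ≤ C * R x ^ 2) := by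
  have h1 : Tendsto (fun x : ℝ => C * (R x ^ 2 / Real.log x ^ r)) atTop (𝓝 (C * κ)) :=
    hR.const_mul C
  have h2 : Tendsto (fun x : ℝ => Real.log x ^ ε) atTop atTop :=
    (tendsto_rpow_atTop hε).comp Real.tendsto_log_atTop
  constructor
  · have h3 := h1.eventually (eventually_le_nhds (lt_add_one (C * κ)))
    filter_upwards [h3, h2.eventually_ge_atTop (C * κ + 1), eventually_ge_atTop 3] with x a1 a2 a3
    have hl := one_lt_log a3
    have h4 : 0 < Real.log x ^ r := pow_pos (by linarith) _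
    rw [Real.rpow_add (by linarith), Real.rpow_natCast]
    have h5 : C * R x ^ 2 = Real.log x ^ r * (C * (R x ^ 2 / Real.log x ^ r)) := by
      field_simp
    rw [h5]
    exact mul_le_mul_of_nonneg_left (a1.trans a2) h4.le
  · intro hC
    have hCκ : 0 < C * κ := mul_pos hC hκ
    have h3 := h1.eventually (eventually_ge_nhds (half_lt_self hCκ))
    filter_upwards [h3, h2.eventually_ge_atTop ((C * κ / 2)⁻¹), eventually_ge_atTop 3] with x a1 a2 a3
    have hl := one_lt_log a3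
    have h4 : 0 < Real.log x ^ r := pow_pos (by linarith) _
    have h5 : 0 < Real.log x ^ ε := Real.rpow_pos_of_pos (by linarith) _
    have h6 : C * R x ^ 2 = Real.log x ^ r * (C * (R x ^ 2 / Real.log x ^ r)) := by
      field_simp
    rw [h6, Real.rpow_sub (by linarith), Real.rpow_natCast, div_eq_mul_inv]
    refine mul_le_mul_of_nonneg_left ?_ h4.le
    refine le_trans ?_ a1
    rw [inv_le_comm₀ h5 (half_pos hCκ)]
    exact a2

end Pool.Agent.D0H93.RP
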